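import Pool.Agent.R755.Bal.Core
import Pool.Agent.R755.Bal.Pos

/-!
# Gaussian measure and balancing constants of translated convex bodies
-/

set_option autoImplicit false

namespace Pool.Agent.Results.MP_ff773e_gt.TranslatedBodies

open MeasureTheory ProbabilityTheory Set
open scoped Pointwise

/-- `ℝⁿ` with its Euclidean structure. -/
abbrev E (n : ℕ) := EuclideanSpace ℝ (Fin n)

/-- The standard Gaussian probability measure of a subset of `ℝⁿ`. -/
noncomputable def gauss (n : ℕ) (V : Set (E n)) : ℝ := (stdGaussian (E n)).real V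

/-- The translate `V + x`. -/
def tr {n : ℕ} (V : Set (E n)) (x : E n) : Set (E n) := (fun v => v + x) '' V

/-- Every `n`-tuple of vectors of the Euclidean unit ball of `ℝⁿ` has a signed sum in `C W`. -/
def Balances (n : ℕ) (W : Set (E n)) (C : ℝ) : Prop :=
  ∀ u : Fin n → E n, (∀ i, ‖u i‖ ≤ 1) →
    ∃ ε : Fin n → ℝ, (∀ i, ε i = 1 ∨ ε i = -1) ∧ ∑ i, ε i • u i ∈ C • W

/-- The balancing constant of the Euclidean unit ball and `W`: the least `C > 0` such that
every `n`-tuple of vectors of the unit ball has a signed sum in `C W`. -/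
noncomputable def beta (n : ℕ) (W : Set (E n)) : ℝ := sInf {C : ℝ | 0 < C ∧ Balances n W C}

/-- The bound. -/
noncomputable def f (p : ℝ) : ℝ := 100 * (1 + 4 * (2 * √(Real.log (100 / p)) + 1 / p) / p)

theorem f_anti : AntitoneOn f (Ioo 0 1) := by
  intro p hp q hq hpq
  unfold f
  have h1 : √(Real.log (100 / q)) ≤ √(Real.log (100 / p)) := by
    apply Real.sqrt_le_sqrt
    apply Real.log_le_log (div_pos (by norm_num) hq.1)
    exact div_le_div_of_nonneg_left (by norm_num) hp.1 hpq
  have h0 : 1 / q ≤ 1 / p := one_div_le_one_div_of_le hp.1 hpq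
  have h3 : 0 ≤ 1 / p := (one_div_pos.mpr hp.1).le
  have h2 : 4 * (2 * √(Real.log (100 / q)) + 1 / q) / q ≤
      4 * (2 * √(Real.log (100 / p)) + 1 / p) / p := by
    apply div_le_div₀ (by positivity) (by linarith) hp.1 hpq
  linarith

theorem f_pos {p : ℝ} (hp : 0 < p) : 0 < f p := by
  have h1 : 0 ≤ 4 * (2 * √(Real.log (100 / p)) + 1 / p) / p := by positivity
  unfold f
  linarith

theorem mem_tr {n : ℕ} (V : Set (E n)) (x z : E n) : z ∈ tr V x ↔ z - x ∈ V := by
  unfold tr
  constructor
  · rintro ⟨v, hv, rfl⟩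
    simpa using hv
  · intro h
    exact ⟨z - x, h, by simp⟩

/-- The pointwise form: for every translate `V + y` some translate `V + x` with the origin in its
interior is balanced with constant `f (γ (V + y))`. -/
theorem pointwise (n : ℕ) (V : Set (E n)) (hV : IsCompact V) (hc : Convex ℝ V)
    (hi : (interior V).Nonempty) (y : E n) :
    ∃ x : E n, 0 ∈ interior (tr V x) ∧ Balances n (tr V x) (f (gauss n (tr V y))) := by
  have htr : tr V y = (Homeomorph.addRight y) '' V := rfl
  have hVy : IsCompact (tr V y) := by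
    rw [htr]; exact hV.image (Homeomorph.addRight y).continuous
  have hcy : Convex ℝ (tr V y) := by
    have h1 : tr V y = (fun z => y + z) '' V := by
      unfold tr
      congr 1
      ext z
      rw [add_comm]
    rw [h1]
    exact hc.translate y
  have hiy : (interior (tr V y)).Nonempty := by
    rw [htr, ← Homeomorph.image_interior]
    exact hi.image _
  have hpos : 0 < gauss n (tr V y) := Pool.Agent.R755.Bal.gauss_pos _ hiy
  set p := gauss n (tr V y) with hp
  set b : E n := p⁻¹ • ∫ x in tr V y, x ∂(stdGaussian (E n)) with hb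
  have hb' : ∫ x in tr V y, x ∂(stdGaussian (E n)) = (stdGaussian (E n) (tr V y)).toReal • b := by
    have h1 : (stdGaussian (E n) (tr V y)).toReal = p := rfl
    rw [hb, h1, smul_smul, mul_inv_cancel₀ hpos.ne', one_smul]
  have hnb : ‖b‖ ≤ 1 / p := by
    rw [le_div_iff₀ hpos, mul_comm]
    exact Pool.Agent.R755.Bal.norm_bary _ p hpos b hb'
  have hfp := f_pos hpos
  refine ⟨y - b, ?_, ?_⟩
  · have h1 := Pool.Agent.R755.Bal.ball_sub (tr V y) hVy.isClosed hcy p rfl hpos b hb' (p / 4)
      (by linarith)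
    rw [mem_interior]
    refine ⟨Metric.ball 0 (p / 4), ?_, Metric.isOpen_ball, Metric.mem_ball_self (by positivity)⟩
    intro z hz
    rw [mem_tr]
    have h2 : z + b ∈ tr V y := by
      apply h1
      rw [mem_closedBall_iff_norm, add_sub_cancel_right]
      rw [mem_ball_zero_iff] at hz
      exact hz.le
    rw [mem_tr] at h2
    convert h2 using 1
    abel
  · intro u hu
    obtain ⟨ε, h1, h2⟩ := Pool.Agent.R755.Bal.core (tr V y) hVy.isClosed hcy p hpos le_rfl b hb'
      (1 / p) hnb u hu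
    refine ⟨ε, h1, ?_⟩
    rw [mem_smul_set_iff_inv_smul_mem₀ hfp.ne', mem_tr]
    rw [mem_tr] at h2
    convert h2 using 1
    unfold f
    abel

theorem beta_nonneg (n : ℕ) (W : Set (E n)) : 0 ≤ beta n W :=
  Real.sInf_nonneg fun _ hC => hC.1.le

theorem result :
    AntitoneOn f (Ioo 0 1) ∧ (∀ p ∈ Ioo (0 : ℝ) 1, 0 < f p) ∧
      ∀ n : ℕ, 1 ≤ n → ∀ V : Set (E n), IsCompact V → Convex ℝ V → (interior V).Nonempty →
        (∀ y : E n, ∃ x : E n, 0 ∈ interior (tr V x) ∧ Balances n (tr V x) (f (gauss n (tr V y)))) ∧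
        (⨅ x : {x : E n // 0 ∈ interior (tr V x)}, beta n (tr V x)) ≤
          ⨅ y : E n, f (gauss n (tr V y)) := by
  refine ⟨f_anti, fun p hp => f_pos hp.1, fun n _ V hV hc hi => ?_⟩
  have hpt := pointwise n V hV hc hi
  refine ⟨hpt, ?_⟩
  apply le_ciInf
  intro y
  obtain ⟨x, hx1, hx2⟩ := hpt y
  have hpos : 0 < gauss n (tr V y) := by
    apply Pool.Agent.R755.Bal.gauss_pos
    have htr : tr V y = (Homeomorph.addRight y) '' V := rfl
    rw [htr, ← Homeomorph.image_interior]
    exact hi.image _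
  have h1 : (⨅ x : {x : E n // 0 ∈ interior (tr V x)}, beta n (tr V x)) ≤ beta n (tr V x) :=
    ciInf_le (f := fun x : {x : E n // 0 ∈ interior (tr V x)} => beta n (tr V x))
      ⟨0, by rintro _ ⟨z, rfl⟩; exact beta_nonneg n _⟩ ⟨x, hx1⟩
  exact h1.trans (csInf_le ⟨0, fun C hC => hC.1.le⟩ ⟨f_pos hpos, hx2⟩)

end Pool.Agent.Results.MP_ff773e_gt.TranslatedBodies
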